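import Pool.Agent.Y211.PY.Stm

set_option autoImplicit false

/-!
# The Hartogs property and valuation rings at nonmaximal primes
-/

open scoped Matrix

universe u

namespace Pool.Agent.Y79.PY

open Pool.Agent.Y211.PY IsLocalRing

section loc

variable {A : Type u} [CommRing A] [IsDomain A] [IsLocalRing A] [IsNoetherianRing A] {s t : A}

/-- the quotient by `s` is a principal ideal ring -/
theorem quot_pir (hm : maximalIdeal A = Ideal.span {s, t}) (hs : (Ideal.span {s}).IsPrime) :
    IsPrincipalIdealRing (A ⧸ Ideal.span {s}) := by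
  have hdom : IsDomain (A ⧸ Ideal.span {s}) := Ideal.Quotient.isDomain _
  have hsurj : Function.Surjective (Ideal.Quotient.mk (Ideal.span {s})) :=
    Ideal.Quotient.mk_surjective
  have hloc : IsLocalRing (A ⧸ Ideal.span {s}) := IsLocalRing.of_surjective' _ hsurj
  have hsm : s ∈ maximalIdeal A := by
    rw [hm]
    exact Ideal.subset_span (by simp)
  have htm : t ∈ maximalIdeal A := by
    rw [hm]
    exact Ideal.subset_span (by simp)
  have hmax : maximalIdeal (A ⧸ Ideal.span {s}) =
      Ideal.span {Ideal.Quotient.mk (Ideal.span {s}) t} := by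
    apply le_antisymm
    · intro b hb
      obtain ⟨a, rfl⟩ := hsurj b
      have ha : a ∈ maximalIdeal A := by
        rw [mem_maximalIdeal, mem_nonunits_iff] at hb ⊢
        intro hu
        exact hb (hu.map _)
      rw [hm, Ideal.mem_span_pair] at ha
      obtain ⟨z, y, rfl⟩ := ha
      rw [map_add, map_mul, map_mul]
      have : Ideal.Quotient.mk (Ideal.span {s}) s = 0 :=
        Ideal.Quotient.eq_zero_iff_mem.2 (Ideal.mem_span_singleton_self s)
      rw [this, mul_zero, zero_add]
      exact Ideal.mul_mem_left _ _ (Ideal.mem_span_singleton_self _)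
    · rw [Ideal.span_singleton_le_iff_mem, mem_maximalIdeal, mem_nonunits_iff]
      intro hu
      obtain ⟨b, hb⟩ := hu.exists_right_inv
      obtain ⟨a, rfl⟩ := hsurj b
      rw [← map_mul, ← map_one (Ideal.Quotient.mk (Ideal.span {s})), Ideal.Quotient.eq] at hb
      have h1 : t * a - 1 ∈ maximalIdeal A :=
        ((Ideal.span_singleton_le_iff_mem _).2 hsm) hb
      have h2 : (1 : A) ∈ maximalIdeal A := by
        have h3 : t * a - (t * a - 1) ∈ maximalIdeal A :=
          Ideal.sub_mem _ (Ideal.mul_mem_right _ _ htm) h1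
        rwa [sub_sub_cancel] at h3
      exact (Ideal.ne_top_iff_one _).1 (maximalIdeal.isMaximal A).ne_top h2
  have hp : (maximalIdeal (A ⧸ Ideal.span {s})).IsPrincipal := by
    rw [hmax]
    exact ⟨⟨_, rfl⟩⟩
  exact ((tfae_of_isNoetherianRing_of_isLocalRing_of_isDomain (A ⧸ Ideal.span {s})).out 4 0).1 hp

/-- nonmaximal primes are principal -/
theorem prime_principal (hm : maximalIdeal A = Ideal.span {s, t}) (hs : (Ideal.span {s}).IsPrime)
    (p : Ideal A) (hp : p.IsPrime) (hpm : p ≠ maximalIdeal A) : ∃ π : A, p = Ideal.span {π} := by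
  have hple : p ≤ maximalIdeal A := IsLocalRing.le_maximalIdeal hp.ne_top
  have hsm : s ∈ maximalIdeal A := by
    rw [hm]
    exact Ideal.subset_span (by simp)
  have htm : t ∈ maximalIdeal A := by
    rw [hm]
    exact Ideal.subset_span (by simp)
  by_cases hsp : s ∈ p
  · refine ⟨s, le_antisymm ?_ ((Ideal.span_singleton_le_iff_mem _).2 hsp)⟩
    have htp : t ∉ p := by
      intro htp
      apply hpm
      apply le_antisymm hple
      rw [hm, Ideal.span_le]
      intro x hx
      simp only [Set.mem_insert_iff, Set.mem_singleton_iff] at hx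
      rcases hx with rfl | rfl
      · exact hsp
      · exact htp
    refine Submodule.le_of_le_smul_of_le_jacobson_bot (I := maximalIdeal A)
      (IsNoetherian.noetherian p) (IsLocalRing.maximalIdeal_le_jacobson _) ?_
    intro x hx
    have hx' := hple hx
    rw [hm, Ideal.mem_span_pair] at hx'
    obtain ⟨z, y, hzy⟩ := hx'
    have hyt : y * t ∈ p := by
      have h1 : x - z * s ∈ p := Ideal.sub_mem _ hx (Ideal.mul_mem_left _ _ hsp)
      rw [← hzy, add_sub_cancel_left] at h1
      exact h1
    have hy : y ∈ p := (hp.mem_or_mem hyt).resolve_right htp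
    rw [← hzy]
    refine Submodule.add_mem_sup ?_ ?_
    · exact Ideal.mul_mem_left _ _ (Ideal.mem_span_singleton_self s)
    · rw [mul_comm]
      exact Submodule.smul_mem_smul htm hy
  · have hB := quot_pir hm hs
    have hsurj : Function.Surjective (Ideal.Quotient.mk (Ideal.span {s})) :=
      Ideal.Quotient.mk_surjective
    obtain ⟨⟨β, hβ⟩⟩ := hB.principal (p.map (Ideal.Quotient.mk (Ideal.span {s})))
    have hβ' : p.map (Ideal.Quotient.mk (Ideal.span {s})) = Ideal.span {β} := hβ
    have hβm : β ∈ p.map (Ideal.Quotient.mk (Ideal.span {s})) := by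
      rw [hβ']
      exact Ideal.mem_span_singleton_self β
    obtain ⟨π, hπ, hπβ⟩ := (Ideal.mem_map_iff_of_surjective _ hsurj).1 hβm
    refine ⟨π, le_antisymm ?_ ((Ideal.span_singleton_le_iff_mem _).2 hπ)⟩
    refine Submodule.le_of_le_smul_of_le_jacobson_bot (I := maximalIdeal A)
      (IsNoetherian.noetherian p) (IsLocalRing.maximalIdeal_le_jacobson _) ?_
    intro x hx
    have h1 : Ideal.Quotient.mk (Ideal.span {s}) x ∈
        p.map (Ideal.Quotient.mk (Ideal.span {s})) := Ideal.mem_map_of_mem _ hx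
    rw [hβ', Ideal.mem_span_singleton'] at h1
    obtain ⟨b, hb⟩ := h1
    obtain ⟨a, rfl⟩ := hsurj b
    rw [← hπβ, ← map_mul, Ideal.Quotient.eq, ← Ideal.neg_mem_iff, neg_sub,
      Ideal.mem_span_singleton'] at hb
    obtain ⟨z, hz⟩ := hb
    have hzs : z * s ∈ p := by
      rw [hz]
      exact Ideal.sub_mem _ hx (Ideal.mul_mem_left _ _ hπ)
    have hzp : z ∈ p := (hp.mem_or_mem hzs).resolve_right hsp
    have hx2 : x = a * π + s * z := by
      linear_combination -hz
    rw [hx2]
    refine Submodule.add_mem_sup ?_ ?_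
    · exact Ideal.mul_mem_left _ _ (Ideal.mem_span_singleton_self π)
    · exact Submodule.smul_mem_smul hsm hzp

/-- principal primes define valuation rings -/
theorem val_loc {F : Type u} [Field F] [Algebra A F] [IsFractionRing A F] (p : Ideal A)
    (hp : p.IsPrime) {π : A} (hπ : p = Ideal.span {π}) (x : F) (hx : x ≠ 0) :
    ∃ c : A, c ∉ p ∧ ((∃ a : A, algebraMap A F a = algebraMap A F c * x) ∨
      ∃ a : A, algebraMap A F a = algebraMap A F c * x⁻¹) := by
  obtain ⟨a, b, hb, rfl⟩ := IsFractionRing.div_surjective (A := A) x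
  have hb0 : b ≠ 0 := nonZeroDivisors.ne_zero hb
  have ha0 : a ≠ 0 := by
    rintro rfl
    simp at hx
  have hbF : algebraMap A F b ≠ 0 := by
    simpa using hb0
  have haF : algebraMap A F a ≠ 0 := by
    simpa using ha0
  have key : ∀ c : A, c ≠ 0 → ∃ (i : ℕ) (c' : A), c' ∉ p ∧ c = π ^ i * c' := by
    intro c hc
    by_cases hπ0 : π = 0
    · refine ⟨0, c, ?_, by simp⟩
      rw [hπ, hπ0]
      simpa using hc
    · have hprime : Prime π := by
        rw [← Ideal.span_singleton_prime hπ0, ← hπ]
        exact hp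
      obtain ⟨i, c', h1, h2⟩ := WfDvdMonoid.max_power_factor hc hprime.irreducible
      refine ⟨i, c', ?_, h2⟩
      rw [hπ, Ideal.mem_span_singleton]
      exact h1
  obtain ⟨i, a', ha', hai⟩ := key a ha0
  obtain ⟨j, b', hb', hbj⟩ := key b hb0
  have hb'0 : algebraMap A F b' ≠ 0 := by
    intro h
    rw [hbj, map_mul, h, mul_zero] at hbF
    exact hbF rfl
  have ha'0 : algebraMap A F a' ≠ 0 := by
    intro h
    rw [hai, map_mul, h, mul_zero] at haF
    exact haF rfl
  rcases le_total j i with hij | hij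
  · refine ⟨b', hb', Or.inl ⟨π ^ (i - j) * a', ?_⟩⟩
    rw [mul_div_assoc', eq_div_iff hbF, ← map_mul, ← map_mul]
    congr 1
    have h1 : π ^ i = π ^ (i - j) * π ^ j := by
      rw [← pow_add, Nat.sub_add_cancel hij]
    rw [hai, hbj, h1]
    ring
  · refine ⟨a', ha', Or.inr ⟨π ^ (j - i) * b', ?_⟩⟩
    rw [inv_div, mul_div_assoc', eq_div_iff haF, ← map_mul, ← map_mul]
    congr 1
    have h1 : π ^ j = π ^ (j - i) * π ^ i := by
      rw [← pow_add, Nat.sub_add_cancel hij]
    rw [hai, hbj, h1]
    ring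

end loc

section glob

variable {R F A : Type u} [CommRing R] [IsDomain R] [Field F] [Algebra R F] [IsFractionRing R F]
  [CommRing A] [Algebra R A] [Algebra A F] [IsScalarTower R A F] (m : Ideal R) [m.IsPrime]
  [IsLocalization.AtPrime A m]

theorem down (p : Ideal A) (hp : p.IsPrime) (D : Ideal R) (hDm : D ≤ m) (hDp : D.IsPrime)
    (hD : ∀ r ∈ D, algebraMap R A r ∈ p) (c : A) (hc : c ∉ p) (y : F)
    (hy : ∃ a : A, algebraMap A F a = algebraMap A F c * y) :
    ∃ s : R, s ∉ D ∧ s • y ∈ (⊥ : Subalgebra R F) := by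
  obtain ⟨a, ha⟩ := hy
  obtain ⟨⟨r, v⟩, hrv⟩ := IsLocalization.surj m.primeCompl c
  obtain ⟨⟨r', v'⟩, hrv'⟩ := IsLocalization.surj m.primeCompl a
  simp only at hrv hrv'
  refine ⟨r * v', ?_, ?_⟩
  · intro hmem
    rcases hDp.mem_or_mem hmem with h | h
    · have h1 := hD r h
      rw [← hrv] at h1
      rcases hp.mem_or_mem h1 with h2 | h2
      · exact hc h2
      · exact hp.ne_top (Ideal.eq_top_of_isUnit_mem _ h2
          (IsLocalization.map_units A v))
    · exact v'.2 (hDm h)
  · rw [Algebra.mem_bot]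
    refine ⟨v * r', ?_⟩
    rw [Algebra.smul_def, map_mul, map_mul, IsScalarTower.algebraMap_apply R A F r,
      IsScalarTower.algebraMap_apply R A F r', ← hrv, ← hrv', map_mul, map_mul, ha,
      IsScalarTower.algebraMap_apply R A F v, IsScalarTower.algebraMap_apply R A F v']
    ring

end glob

theorem exists_alg {R F : Type u} [CommRing R] [IsDomain R] [Field F] [Algebra R F]
    [IsFractionRing R F] (m : Ideal R) [m.IsPrime] :
    ∃ alg : Algebra (Localization.AtPrime m) F, IsScalarTower R (Localization.AtPrime m) F ∧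
      IsFractionRing (Localization.AtPrime m) F := by
  letI alg : Algebra (Localization.AtPrime m) F :=
    IsLocalization.localizationAlgebraOfSubmonoidLe (Localization.AtPrime m) F m.primeCompl
      (nonZeroDivisors R) (Ideal.primeCompl_le_nonZeroDivisors m)
  have h1 : IsScalarTower R (Localization.AtPrime m) F :=
    IsLocalization.localization_isScalarTower_of_submonoid_le (Localization.AtPrime m) F
      m.primeCompl (nonZeroDivisors R) (Ideal.primeCompl_le_nonZeroDivisors m)
  exact ⟨alg, h1, IsFractionRing.isFractionRing_of_isDomain_of_isLocalization m.primeCompl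
    (Localization.AtPrime m) F⟩

theorem tV (h : S_LOC.{u}) : S_VAL.{u} := by
  intro R F _ _ _ _ _ _ hReg D hDp hDm x
  by_cases hx : x = 0
  · refine ⟨1, fun h1 => hDp.ne_top ((Ideal.eq_top_iff_one _).2 h1), Or.inl ?_⟩
    rw [hx, smul_zero]
    exact zero_mem _
  obtain ⟨m, hm, hDle⟩ := Ideal.exists_le_maximal D hDp.ne_top
  haveI := hm.isPrime
  obtain ⟨hreg, hdim⟩ := hReg m
  obtain ⟨alg, hst, hfr⟩ := exists_alg (F := F) m
  have hdom : IsDomain (Localization.AtPrime m) :=
    IsLocalization.isDomain_localization (Ideal.primeCompl_le_nonZeroDivisors m)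
  obtain ⟨s, t, h1, h2, -, -⟩ := h (Localization.AtPrime m) hdim
  set p : Ideal (Localization.AtPrime m) := D.map (algebraMap R (Localization.AtPrime m)) with hpdef
  have hdisj : Disjoint (m.primeCompl : Set R) (D : Set R) := by
    rw [Set.disjoint_left]
    intro a ha ha'
    exact ha (hDle ha')
  have hp : p.IsPrime := IsLocalization.isPrime_of_isPrime_disjoint m.primeCompl _ D hDp hdisj
  have hcomap : p.comap (algebraMap R (Localization.AtPrime m)) = D :=
    IsLocalization.comap_map_of_isPrime_disjoint m.primeCompl _ hDp hdisj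
  have hpm : p ≠ maximalIdeal (Localization.AtPrime m) := by
    intro heq
    apply hDm
    have h5 : Ideal.comap (algebraMap R (Localization.AtPrime m))
        (maximalIdeal (Localization.AtPrime m)) = m :=
      Localization.AtPrime.under_maximalIdeal
    rw [← hcomap, heq, h5]
    exact hm
  obtain ⟨π, hπ⟩ := prime_principal h1 h2 p hp hpm
  obtain ⟨c, hc, hcx⟩ := val_loc (F := F) p hp hπ x hx
  have hD : ∀ r ∈ D, algebraMap R (Localization.AtPrime m) r ∈ p :=
    fun r hr => Ideal.mem_map_of_mem _ hr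
  rcases hcx with hcx | hcx
  · obtain ⟨s, hs, h⟩ := down m p hp D hDle hDp hD c hc x hcx
    exact ⟨s, hs, Or.inl h⟩
  · obtain ⟨s, hs, h⟩ := down m p hp D hDle hDp hD c hc x⁻¹ hcx
    exact ⟨s, hs, Or.inr h⟩

theorem tH (h : S_LOC.{u}) : S_HART.{u} := by
  intro R F _ _ _ _ _ _ hReg m hm x hx
  haveI := hm.isPrime
  obtain ⟨hreg, hdim⟩ := hReg m
  obtain ⟨alg, hst, hfr⟩ := exists_alg (F := F) m
  have hdom : IsDomain (Localization.AtPrime m) :=
    IsLocalization.isDomain_localization (Ideal.primeCompl_le_nonZeroDivisors m)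
  obtain ⟨s, t, h1, h2, hs0, ht⟩ := h (Localization.AtPrime m) hdim
  -- the ideal of denominators
  let I : Ideal R := (Subalgebra.toSubmodule (⊥ : Subalgebra R F)).comap
    (LinearMap.toSpanSingleton R F x)
  have hI : ∀ r, r ∈ I ↔ r • x ∈ (⊥ : Subalgebra R F) := fun r => Iff.rfl
  have hinj : Function.Injective (algebraMap (Localization.AtPrime m) F) :=
    IsFractionRing.injective _ _
  -- local membership
  let J : Ideal (Localization.AtPrime m) :=
    (Subalgebra.toSubmodule (⊥ : Subalgebra (Localization.AtPrime m) F)).comap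
      (LinearMap.toSpanSingleton (Localization.AtPrime m) F x)
  have hJ : ∀ r, r ∈ J ↔ r • x ∈ (⊥ : Subalgebra (Localization.AtPrime m) F) := fun r => Iff.rfl
  have hmJ : maximalIdeal (Localization.AtPrime m) ≤ J := by
    rw [← Localization.AtPrime.map_eq_maximalIdeal, Ideal.map_le_iff_le_comap]
    intro r hr
    rw [Ideal.mem_comap, hJ]
    have h3 := hx r hr
    rw [Algebra.mem_bot] at h3 ⊢
    obtain ⟨a, ha⟩ := h3
    refine ⟨algebraMap R _ a, ?_⟩
    rw [← IsScalarTower.algebraMap_apply, ha, algebraMap_smul]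
  have hsJ : s ∈ J := hmJ (by rw [h1]; exact Ideal.subset_span (by simp))
  have htJ : t ∈ J := hmJ (by rw [h1]; exact Ideal.subset_span (by simp))
  rw [hJ, Algebra.mem_bot] at hsJ htJ
  obtain ⟨a, ha⟩ := hsJ
  obtain ⟨b, hb⟩ := htJ
  rw [Algebra.smul_def] at ha hb
  have hab : t * a = s * b := by
    apply hinj
    rw [map_mul, map_mul, ha, hb]
    ring
  have hsa : a ∈ Ideal.span {s} := by
    have h3 : t * a ∈ Ideal.span {s} := by
      rw [hab]
      exact Ideal.mul_mem_right _ _ (Ideal.mem_span_singleton_self s)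
    exact (h2.mem_or_mem h3).resolve_left ht
  rw [Ideal.mem_span_singleton'] at hsa
  obtain ⟨c, hc⟩ := hsa
  have hxc : algebraMap (Localization.AtPrime m) F c = x := by
    have hs0' : algebraMap (Localization.AtPrime m) F s ≠ 0 := by
      intro h0
      apply hs0
      apply hinj
      rw [h0, map_zero]
    apply mul_left_cancel₀ hs0'
    rw [← ha, ← hc, map_mul]
    ring
  obtain ⟨⟨r, v⟩, hrv⟩ := IsLocalization.surj m.primeCompl c
  simp only at hrv
  have hvI : (v : R) ∈ I := by
    rw [hI, Algebra.mem_bot]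
    refine ⟨r, ?_⟩
    rw [Algebra.smul_def, IsScalarTower.algebraMap_apply R (Localization.AtPrime m) F r, ← hrv,
      map_mul, hxc, ← IsScalarTower.algebraMap_apply R (Localization.AtPrime m) F]
    ring
  have htop : I = ⊤ := by
    by_contra hne
    obtain ⟨n, hn, hIn⟩ := Ideal.exists_le_maximal I hne
    have hmI : m ≤ I := fun r hr => (hI r).2 (hx r hr)
    have hmn : m = n := hm.eq_of_le hn.ne_top (hmI.trans hIn)
    exact v.2 (hmn.ge (hIn hvI))
  have h3 : (1 : R) ∈ I := by
    rw [htop]
    trivial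
  rw [hI, one_smul] at h3
  exact h3

end Pool.Agent.Y79.PY
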