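import Pool.Agent.Y211.PY.Stm

set_option autoImplicit false

/-!
# Transitivity on unit vectors
-/

open scoped Matrix

universe u

namespace Pool.Agent.Y79.PY

open Pool.Agent.Y211.PY

/-- sums of squares in a formally real field vanish only trivially -/
theorem fr_sum {K : Type u} [Field K] (hK : ¬ IsSumSq (-1 : K)) {n : ℕ} (x : Fin n → K)
    (h : ∑ i, x i ^ 2 = 0) (i : Fin n) : x i = 0 := by
  classical
  by_contra hi
  apply hK
  have h1 : (-1 : K) = ∑ j ∈ Finset.univ.erase i, (x j / x i) ^ 2 := by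
    have h2 := Finset.add_sum_erase Finset.univ (fun j => x j ^ 2) (Finset.mem_univ i)
    rw [h] at h2
    have h3 : ∑ j ∈ Finset.univ.erase i, (x j / x i) ^ 2 =
        (∑ j ∈ Finset.univ.erase i, x j ^ 2) / x i ^ 2 := by
      rw [Finset.sum_div]
      apply Finset.sum_congr rfl
      intro j _
      rw [div_pow]
    rw [h3, eq_div_iff (pow_ne_zero 2 hi)]
    linear_combination -h2
  rw [h1]
  exact IsSumSq.sum_sq _ _

/-- reflections -/
theorem exists_isom {R : Type u} [CommRing R] {n : ℕ} (u c : Fin n → R) (hu : u ⬝ᵥ u = 1)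
    (hc : c ⬝ᵥ c = 1) (h : IsUnit ((u - c) ⬝ᵥ (u - c))) :
    ∃ σ : (Fin n → R) → (Fin n → R), (∀ y z, σ y ⬝ᵥ σ z = y ⬝ᵥ z) ∧ σ u = c := by
  obtain ⟨v, hv⟩ := h.exists_right_inv
  refine ⟨fun y => y - (2 * v * ((u - c) ⬝ᵥ y)) • (u - c), ?_, ?_⟩
  · intro y z
    simp only [sub_dotProduct, dotProduct_sub, smul_dotProduct, dotProduct_smul, smul_eq_mul]
    simp only [sub_dotProduct, dotProduct_sub] at hv
    rw [dotProduct_comm y u, dotProduct_comm y c]
    rw [dotProduct_comm c u] at hv ⊢
    linear_combination (4 * v * (u ⬝ᵥ y - c ⬝ᵥ y) * (u ⬝ᵥ z - c ⬝ᵥ z)) * hv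
  · have h1 : 2 * v * ((u - c) ⬝ᵥ u) = 1 := by
      simp only [sub_dotProduct, dotProduct_sub] at hv ⊢
      rw [hu, hc, dotProduct_comm c u] at hv
      rw [hu, dotProduct_comm c u]
      linear_combination hv
    simp only
    rw [h1, one_smul, sub_sub_cancel]

theorem tr (h : S_GP.{u}) : S_TR.{u} := by
  intro K R F _ _ _ _ _ _ _ _ _ hK hF hm n hn s
  -- units
  have hunit : ∀ {N : ℕ} (a : Fin N → R), (∀ φ : R →ₐ[K] K, ∃ i, φ (a i) ≠ 0) →
      IsUnit (a ⬝ᵥ a) := by
    intro N a ha
    by_contra hnu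
    obtain ⟨m, hmm, hmem⟩ := exists_max_ideal_of_mem_nonunits hnu
    obtain ⟨φ, hφ⟩ := hm m hmm
    obtain ⟨i, hi⟩ := ha φ
    apply hi
    rw [← hφ, RingHom.mem_ker] at hmem
    apply fr_sum hK (fun i => φ (a i))
    have h1 : φ (a ⬝ᵥ a) = ∑ i, φ (a i) ^ 2 := by
      simp only [dotProduct, map_sum, map_mul, sq]
    rw [← h1]
    exact hmem
  have hmapdot : ∀ {N : ℕ} (a b : Fin N → K),
      (fun i => algebraMap K R (a i)) ⬝ᵥ (fun i => algebraMap K R (b i)) =
        algebraMap K R (a ⬝ᵥ b) := by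
    intro N a b
    simp only [dotProduct, map_sum, map_mul]
  induction s with
  | zero =>
    intro w e _ _
    refine ⟨w, ?_⟩
    simp only [dotProduct, sq]
    rfl
  | succ s ih =>
    intro w e he hw
    set u : Fin (n + s + 1) → R := e (Fin.last s) with hu
    have huu : u ⬝ᵥ u = 1 := by
      have := he (Fin.last s) (Fin.last s)
      rw [if_pos rfl] at this
      exact this
    obtain ⟨c, hc, hφ⟩ := h K R F hK hF (n + s + 1) (by omega) u huu
    -- first reflection
    set c' : Fin (n + s + 1) → R := fun i => algebraMap K R (c i) with hc'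
    have hcc : c' ⬝ᵥ c' = 1 := by
      rw [hc', hmapdot, hc, map_one]
    have h1 : IsUnit ((u - c') ⬝ᵥ (u - c')) := by
      apply hunit
      intro φ
      by_contra hno
      push Not at hno
      apply hφ φ
      funext i
      have h2 := hno i
      rw [Pi.sub_apply, map_sub, hc', AlgHom.commutes, sub_eq_zero] at h2
      exact h2
    obtain ⟨σ, hσ, hσu⟩ := exists_isom u c' huu hcc h1
    -- second reflection
    set l : Fin (n + s + 1) → K := Pi.single (Fin.last (n + s)) 1 with hl
    set l' : Fin (n + s + 1) → R := fun i => algebraMap K R (l i) with hl'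
    have hll : l' ⬝ᵥ l' = 1 := by
      rw [hl', hmapdot, hl]
      simp
    have h2 : ∃ τ : (Fin (n + s + 1) → R) → (Fin (n + s + 1) → R),
        (∀ y z, τ y ⬝ᵥ τ z = y ⬝ᵥ z) ∧ τ c' = l' := by
      by_cases hcl : c = l
      · refine ⟨id, fun _ _ => rfl, ?_⟩
        rw [hc', hl', hcl]
        rfl
      · apply exists_isom c' l' hcc hll
        apply hunit
        intro φ
        by_contra hno
        push Not at hno
        apply hcl
        funext i
        have h2 := hno i
        rw [Pi.sub_apply, map_sub, hc', hl', AlgHom.commutes, AlgHom.commutes, sub_eq_zero] at h2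
        exact h2
    obtain ⟨τ, hτ, hτc⟩ := h2
    have hρ : ∀ y z, τ (σ y) ⬝ᵥ τ (σ z) = y ⬝ᵥ z := fun y z => by rw [hτ, hσ]
    have hlast : ∀ y : Fin (n + s + 1) → R, y ⬝ᵥ l' = y (Fin.last (n + s)) := by
      intro y
      have h3 : l' = Pi.single (Fin.last (n + s)) 1 := by
        funext i
        rw [hl', hl]
        by_cases hi : i = Fin.last (n + s)
        · rw [hi]
          simp
        · simp [Pi.single_eq_of_ne hi]
      rw [h3]
      simp
    have hzero : ∀ y : Fin (n + s + 1) → R, y ⬝ᵥ u = 0 → τ (σ y) (Fin.last (n + s)) = 0 := by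
      intro y hy
      rw [← hlast (τ (σ y)), ← hτc, ← hσu, hρ, hy]
    have hinit : ∀ y z : Fin (n + s + 1) → R, y (Fin.last (n + s)) = 0 →
        (fun i : Fin (n + s) => y i.castSucc) ⬝ᵥ (fun i : Fin (n + s) => z i.castSucc) =
          y ⬝ᵥ z := by
      intro y z hy
      simp only [dotProduct]
      rw [Fin.sum_univ_castSucc (n := n + s), hy, zero_mul, add_zero]
    have hw0 : τ (σ w) (Fin.last (n + s)) = 0 := hzero w (hw _)
    have he0 : ∀ i : Fin s, τ (σ (e i.castSucc)) (Fin.last (n + s)) = 0 := by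
      intro i
      apply hzero
      have := he i.castSucc (Fin.last s)
      rw [if_neg (Fin.castSucc_lt_last i).ne] at this
      exact this
    obtain ⟨x, hx⟩ := ih (fun i => τ (σ w) i.castSucc) (fun j i => τ (σ (e j.castSucc)) i.castSucc)
      (by
        intro i j
        rw [hinit _ _ (he0 i), hρ, he]
        simp only [Fin.castSucc_inj])
      (by
        intro i
        rw [hinit _ _ hw0, hρ, hw])
    refine ⟨x, ?_⟩
    rw [← hx, hinit _ _ hw0, hρ]

end Pool.Agent.Y79.PY
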